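import Pool.Agent.Q60.PL.Seq

/-!
# The powers of a variety over a local field
-/

set_option autoImplicit false

open Module MeasureTheory ProbabilityTheory Filter Topology

namespace Pool.Agent.Q60.PL

open Pool.Agent.Y143 Pool.Agent.Y163.MW Pool.Agent.Y163.MW.Coh Pool.Agent.H914

universe u v w

section

variable {K : Type u} [Field K] {Ω : Type w} [Field Ω] [CharZero Ω] [IsAlgClosed Ω]
  {T : Theory.{u, v, w} K Ω} {q : ℕ}

lemma sum_wt_of_sym {R : Coh.{v, w} Ω} (hi : iSupIndep (R.tot q)) (S : Strings (R.tot q) R.N)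
    (hsym : ∀ c, finrank Ω (R.tot q c) = finrank Ω (R.tot q (-c))) : ∑ p, S.wt p = 0 := by
  apply sum_eq_zero
  intro r
  rw [← finrank_gr hi S.b S.wt S.mem' r, hsym, finrank_gr hi S.b S.wt S.mem' (-r)]

theorem exists_powSeq (hq : 1 < q) (hT : T.IsLocal q) (X : SmVar.{u} K) :
    ∃ S : Strings ((T.H X).tot q) (T.H X).N,
      PowSeq (R := fun n => T.H (Pool.Agent.Y163.MW.pow X n)) q S := by
  obtain ⟨S⟩ := exists_strings hq (hT.coh X)
  refine ⟨S, ⟨fun n => indep_tot hq (hT.coh _), fun n => ?_, ?_⟩⟩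
  · exact adp_pow hT hq X (adp_strings S) n
  · exact sum_wt_of_sym (indep_tot hq (hT.coh X)) S (finrank_tot_neg hq (hT.coh X))

lemma exists_wt_ne {R : Coh.{v, w} Ω} (hq : 1 < q) (hR : R.IsCoh q) (S : Strings (R.tot q) R.N)
    (hN : R.N ≠ 0) : ∃ p, S.wt p ≠ 0 := by
  by_contra hcon
  push Not at hcon
  have h1 := totWeight_eq hq hR S
  have h2 := totRank_pos hq hR hN
  have h3 := (moment_tot hq hR).1
  rw [h1, Finset.sum_eq_zero (fun p _ => by rw [hcon p]; rfl)] at h3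
  omega

lemma exists_defect_ne {R : Coh.{v, w} Ω} (hq : 1 < q) (hR : R.IsCoh q)
    (S : Strings (R.tot q) R.N) (h : ¬ ∀ m, R.MWPure q m) : ∃ p, S.wt p - S.ct p ≠ 0 := by
  rw [mw_iff hq hR S] at h
  push Not at h
  obtain ⟨s, hs⟩ := h
  refine ⟨⟨s, ⟨0, by omega⟩⟩, ?_⟩
  unfold Strings.wt Strings.ct
  simp only
  omega

end

end Pool.Agent.Q60.PL
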