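import Pool.Agent.Q60.PL.LWM
import Pool.Agent.Y163.MX.Fin

/-!
# The total moments are the sums of the moments of the `H^m`
-/

set_option autoImplicit false

open Module MeasureTheory ProbabilityTheory Filter Topology

namespace Pool.Agent.Q60.PL

open Pool.Agent.Y143 Pool.Agent.Y163.MW Pool.Agent.Y163.MW.Coh Pool.Agent.H914 Pool.Agent.Y163.MX

universe u v w

section

variable {K : Type u} [Field K] {V : Type v} [AddCommGroup V] [Module K V] [Module.Finite K V]

lemma finrank_finset_sup {ι : Type*} [DecidableEq ι] {A : ι → Submodule K V} (hA : iSupIndep A)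
    (s : Finset ι) : finrank K (⨆ i ∈ s, A i : Submodule K V) = ∑ i ∈ s, finrank K (A i) := by
  induction s using Finset.induction_on with
  | empty => simp
  | insert i s hi ih =>
    rw [Finset.sum_insert hi, ← ih, Finset.iSup_insert]
    have hd : Disjoint (A i) (⨆ j ∈ s, A j) := hA.disjoint_biSup hi
    have h1 := Submodule.finrank_sup_add_finrank_inf_eq (A i) (⨆ j ∈ s, A j)
    rw [disjoint_iff.1 hd, finrank_bot] at h1
    omega

lemma finrank_iSup_eq {ι : Type*} {A : ι → Submodule K V} (hA : iSupIndep A) (s : Finset ι)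
    (hs : ∀ i, i ∉ s → A i = ⊥) : finrank K (⨆ i, A i : Submodule K V) = ∑ i ∈ s, finrank K (A i) := by
  classical
  have h : ⨆ i, A i = ⨆ i ∈ s, A i := ?_
  · rw [h, finrank_finset_sup hA s]
  apply le_antisymm
  · refine iSup_le fun i => ?_
    by_cases hi : i ∈ s
    · exact le_iSup₂ (f := fun i (_ : i ∈ s) => A i) i hi
    · rw [hs i hi]
      exact bot_le
  · exact iSup₂_le fun i _ => le_iSup A i

end

section

variable {Ω : Type w} [Field Ω] [CharZero Ω] {R : Coh.{v, w} Ω} {q : ℕ}

lemma exists_supp (hR : R.IsCoh q) : ∃ s : Finset ℕ, ∀ m, m ∉ s → R.gr m = ⊥ := by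
  have := hR.finite
  have hfin : {m | R.gr m ≠ ⊥}.Finite :=
    WellFoundedGT.finite_ne_bot_of_iSupIndep hR.isInternal.submodule_iSupIndep
  refine ⟨hfin.toFinset, fun m hm => ?_⟩
  by_contra h
  exact hm (hfin.mem_toFinset.2 h)

lemma exists_nil [IsAlgClosed Ω] (hq : 1 < q) (hR : R.IsCoh q) : ∃ k, R.N ^ k = 0 := by
  have := hR.finite
  obtain ⟨π, hπ⟩ := Pool.Agent.Y153.MW.exists_proj (R.tot q) (isInternal_tot hq hR)
  obtain ⟨k, hk⟩ := Pool.Agent.Y153.MW.exists_nilp (isInternal_tot hq hR) hπ (N_tot hq hR)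
  exact ⟨k, LinearMap.ext hk⟩

theorem totRank_sum [IsAlgClosed Ω] (hq : 1 < q) (hR : R.IsCoh q) :
    R.totRankMoment = ∑ᶠ m, R.rankMoment m := by
  classical
  have := hR.finite
  obtain ⟨s, hs⟩ := exists_supp hR
  obtain ⟨k₀, hk₀⟩ := exists_nil hq hR
  have hNk : ∀ k, ∀ m, ∀ x ∈ R.gr m, (R.N ^ k) x ∈ R.gr m := by
    intro k m
    induction k with
    | zero => intro x hx; simpa using hx
    | succ k ih =>
      intro x hx
      rw [pow_succ', Module.End.mul_apply]
      exact hR.N_gr m _ (ih x hx)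
  have hrk : ∀ k, finrank Ω ((⊤ : Submodule Ω R.V).map (R.N ^ k)) =
      ∑ m ∈ s, finrank Ω ((R.gr m).map (R.N ^ k)) := by
    intro k
    have h1 : (⊤ : Submodule Ω R.V).map (R.N ^ k) = ⨆ m, (R.gr m).map (R.N ^ k) := by
      rw [← hR.isInternal.submodule_iSup_eq_top, Submodule.map_iSup]
    rw [h1, finrank_iSup_eq (s := s)]
    · refine hR.isInternal.submodule_iSupIndep.mono fun m => ?_
      rintro _ ⟨x, hx, rfl⟩
      exact hNk k m x hx
    · intro m hm
      rw [hs m hm, Submodule.map_bot]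
  have hz : ∀ k (S : Submodule Ω R.V), k₀ ≤ k → finrank Ω (S.map (R.N ^ k)) = 0 := by
    intro k S hk
    have : R.N ^ k = 0 := by
      rw [← Nat.sub_add_cancel hk, pow_add, hk₀, mul_zero]
    rw [this, Submodule.map_zero, finrank_bot]
  have h2 : R.totRankMoment = ∑ m ∈ s, R.rankMoment m := by
    unfold totRankMoment rankMoment rankSum
    rw [← finsum_sum_comm]
    · refine finsum_congr fun k => ?_
      rw [hrk, Nat.cast_sum, Finset.mul_sum]
    · intro m _
      refine (Set.finite_lt_nat k₀).subset fun k hk => ?_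
      by_contra hcon
      apply hk
      show 2 * (k : ℤ) * (finrank Ω ((R.gr m).map (R.N ^ k)) : ℤ) = 0
      rw [hz k _ (not_lt.1 hcon)]
      simp
  rw [h2]
  symm
  apply finsum_eq_sum_of_support_subset
  intro m hm
  by_contra hcon
  apply hm
  unfold rankMoment rankSum
  rw [← finsum_zero (α := ℕ)]
  refine finsum_congr fun k => ?_
  rw [hs m (fun h => hcon (Finset.mem_coe.2 h)), Submodule.map_bot, finrank_bot]
  simp

theorem totWeight_sum (hq : 1 < q) (hR : R.IsCoh q) :
    R.totWeightMoment q = ∑ᶠ m, R.weightMoment q m := by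
  classical
  have := hR.finite
  obtain ⟨s, hs⟩ := exists_supp hR
  have hsupp : ∀ m, m ∉ s → ∀ c, R.exc q m c = ⊥ := fun m hm c =>
    le_bot_iff.1 ((exc_le m c).trans (hs m hm).le)
  have hrk : ∀ c, finrank Ω (R.tot q c) = ∑ m ∈ s, finrank Ω (R.exc q m c) := by
    intro c
    refine finrank_iSup_eq ?_ s fun m hm => hsupp m hm c
    exact (indep_exc hq hR).comp (f := fun m : ℕ => (m, c)) (fun m m' h => (Prod.mk.inj h).1)
  have h2 : R.totWeightMoment q = ∑ m ∈ s, R.weightMoment q m := by
    unfold totWeightMoment weightMoment squareSum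
    rw [← finsum_sum_comm]
    · refine finsum_congr fun c => ?_
      rw [hrk, Nat.cast_sum, Finset.mul_sum]
    · intro m _
      have hfin : {c | R.exc q m c ≠ ⊥}.Finite :=
        WellFoundedGT.finite_ne_bot_of_iSupIndep (indep_exc_deg hq hR m)
      refine hfin.subset fun c hc => ?_
      intro h0
      apply hc
      show c ^ 2 * (finrank Ω (R.exc q m c) : ℤ) = 0
      rw [h0, finrank_bot]
      simp
  rw [h2]
  symm
  apply finsum_eq_sum_of_support_subset
  intro m hm
  by_contra hcon
  apply hm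
  unfold weightMoment squareSum
  rw [← finsum_zero (α := ℤ)]
  refine finsum_congr fun c => ?_
  rw [hsupp m (fun h => hcon (Finset.mem_coe.2 h)) c, finrank_bot]
  simp

end

section padic

variable {K : Type u} [Field K] {Ω : Type w} [Field Ω] [CharZero Ω] {T : PTheory.{u, v, w} K Ω}
  {q : ℕ}

/-- The known properties of the Hyodo-Kato cohomology, with the Künneth formula. -/
structure IsPadic (T : PTheory.{u, v, w} K Ω) (q : ℕ) : Prop where
  isP : T.IsPLocal q
  kunneth : ∀ X Y, ∃ κ, IsKunneth (T.H X) (T.H Y) (T.H (X.prod Y)) κ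

/-- The sum of the `(a - b)² h^(a, b)` over all Hodge numbers. -/
noncomputable def totHodge (T : PTheory.{u, v, w} K Ω) (X : SmVar.{u} K) : ℤ :=
  ∑ᶠ m, hodgeMoment m (T.hodge X m)

lemma IsPadic.isLocal (h : IsPadic T q) : (⟨T.H⟩ : Theory.{u, v, w} K Ω).IsLocal q :=
  ⟨h.isP.coh, h.kunneth⟩

omit [CharZero Ω] in
lemma hodge_zero {R : Coh.{v, w} Ω} {val : Ω → ℝ} {m : ℕ} {hdg : ℕ → ℕ}
    (h : NewtonAboveHodge R val m hdg) (hgr : R.gr m = ⊥) : hodgeMoment m hdg = 0 := by
  obtain ⟨n, α, a, hα, ha, -⟩ := h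
  have hn : IsEmpty (Fin n) := ⟨fun i => by
    have h1 := hα (α i)
    have h2 : mult R m (α i) = 0 := by
      unfold mult
      rw [hgr, bot_inf_eq, finrank_bot]
    rw [h2] at h1
    have : Nonempty {j // α j = α i} := ⟨⟨i, rfl⟩⟩
    exact absurd h1 Nat.card_pos.ne'⟩
  unfold hodgeMoment
  rw [← finsum_zero (α := ℕ)]
  refine finsum_congr fun c => ?_
  have : hdg c = 0 := by
    rw [← ha c]
    exact Nat.card_of_isEmpty
  rw [this]
  simp

/-- The total weight moment is at most the total Hodge moment. -/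
theorem weight_le_hodge [IsAlgClosed Ω] (hq : 1 < q) (hT : IsPadic T q) (X : SmVar.{u} K)
    (hrat : ∀ m, RationalPoly (charP (T.H X) m)) :
    (T.H X).totWeightMoment q ≤ totHodge T X := by
  classical
  have hR := hT.isP.coh X
  obtain ⟨s, hs⟩ := exists_supp hR
  have h1 : totHodge T X = ∑ m ∈ s, hodgeMoment m (T.hodge X m) := by
    apply finsum_eq_sum_of_support_subset
    intro m hm
    by_contra hcon
    exact hm (hodge_zero (hT.isP.polygons X m) (hs m fun h => hcon (Finset.mem_coe.2 h)))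
  have h2 : (T.H X).totWeightMoment q = ∑ m ∈ s, (T.H X).weightMoment q m := by
    rw [totWeight_sum hq hR]
    apply finsum_eq_sum_of_support_subset
    intro m hm
    by_contra hcon
    apply hm
    unfold weightMoment squareSum
    rw [← finsum_zero (α := ℤ)]
    refine finsum_congr fun c => ?_
    have : (T.H X).exc q m c = ⊥ := le_bot_iff.1
      ((exc_le m c).trans (hs m fun h => hcon (Finset.mem_coe.2 h)).le)
    rw [this, finrank_bot]
    simp
  rw [h1, h2]
  refine Finset.sum_le_sum fun m _ => ?_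
  obtain ⟨-, h3, h4⟩ := sandwich hq hR (hrat m) hT.isP.val (hT.isP.polygons X m)
  exact_mod_cast h3.trans h4

end padic

end Pool.Agent.Q60.PL
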