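import Mathlib

/-!
# The central limit theorem for counting functions
-/

set_option autoImplicit false

open MeasureTheory ProbabilityTheory Filter Topology

namespace Pool.Agent.Q60.PL

section

variable {J : Type} [Fintype J] [Nonempty J] [MeasurableSpace J] [MeasurableSingletonClass J]

lemma uniform_real (s : Set J) :
    ((PMF.uniformOfFintype J).toMeasure).real s = (Nat.card s : ℝ) / Fintype.card J := by
  classical
  rw [measureReal_def, PMF.toMeasure_uniformOfFintype_apply s (Set.toFinite s).measurableSet,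
    ENNReal.toReal_div, ENNReal.toReal_natCast, ENNReal.toReal_natCast, Nat.card_eq_fintype_card]

lemma integral_uniform {E : Type*} [NormedAddCommGroup E] [NormedSpace ℝ E] [CompleteSpace E]
    (f : J → E) : ∫ j, f j ∂((PMF.uniformOfFintype J).toMeasure) =
      (Fintype.card J : ℝ)⁻¹ • ∑ j, f j := by
  rw [PMF.integral_eq_sum, Finset.smul_sum]
  refine Finset.sum_congr rfl fun j _ => ?_
  rw [PMF.uniformOfFintype_apply, ENNReal.toReal_inv, ENNReal.toReal_natCast]

lemma charFun_uniform (f : J → ℝ) (t : ℝ) :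
    charFun (Measure.map f (PMF.uniformOfFintype J).toMeasure) t =
      (∑ j, Complex.exp (t * f j * Complex.I)) / (Fintype.card J : ℂ) := by
  rw [charFun_apply_real, integral_map (measurable_of_finite f).aemeasurable (by fun_prop),
    integral_uniform, Complex.real_smul, div_eq_inv_mul]
  push_cast
  rfl

end

section

variable {I : Type} [Fintype I] [Nonempty I]

/-- The law of the normalized sum. -/
noncomputable def sumLaw (x : I → ℝ) (n : ℕ) : Measure ℝ :=
  letI : MeasurableSpace I := ⊤
  Measure.map (fun g : Fin n → I => (√(n : ℝ))⁻¹ * ∑ k, x (g k))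
    (PMF.uniformOfFintype (Fin n → I)).toMeasure

instance (x : I → ℝ) (n : ℕ) : IsProbabilityMeasure (sumLaw x n) := by
  let _ : MeasurableSpace I := ⊤
  unfold sumLaw
  exact Measure.isProbabilityMeasure_map (measurable_of_finite _).aemeasurable

lemma charFun_sumLaw (x : I → ℝ) (n : ℕ) (t : ℝ) :
    charFun (sumLaw x n) t =
      ((∑ i, Complex.exp (((√(n : ℝ))⁻¹ * t : ℝ) * x i * Complex.I)) / (Fintype.card I : ℂ)) ^ n := by
  let _ : MeasurableSpace I := ⊤
  unfold sumLaw
  rw [charFun_uniform, div_pow, Fintype.sum_pow, Fintype.card_fun, Fintype.card_fin]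
  push_cast
  congr 1
  refine Finset.sum_congr rfl fun g _ => ?_
  rw [← Complex.exp_sum]
  congr 1
  rw [Finset.mul_sum, Finset.mul_sum, Finset.sum_mul]
  refine Finset.sum_congr rfl fun k _ => ?_
  ring

/-- The central limit theorem for the uniform distribution on a finite set. -/
theorem tendsto_sumLaw (x : I → ℝ) (h0 : ∑ i, x i = 0) (h1 : ∑ i, x i ^ 2 = Fintype.card I) :
    Tendsto (β := ProbabilityMeasure ℝ) (fun n => ⟨sumLaw x n, inferInstance⟩) atTop
      (𝓝 (⟨gaussianReal 0 1, inferInstance⟩ : ProbabilityMeasure ℝ)) := by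
  let _ : MeasurableSpace I := ⊤
  refine ProbabilityMeasure.tendsto_iff_tendsto_charFun.2 ?_
  intro t
  have hc : (Fintype.card I : ℝ) ≠ 0 := by exact_mod_cast Fintype.card_ne_zero
  have h2 := tendsto_charFun_inv_sqrt_mul_pow (P := (PMF.uniformOfFintype I).toMeasure) (X := x)
    (measurable_of_finite x).aemeasurable (by
      rw [integral_uniform, h0, smul_zero]) (by
      simp only [Pi.pow_apply]
      rw [integral_uniform, h1, smul_eq_mul, inv_mul_cancel₀ hc]) t
  have h3 : charFun (gaussianReal 0 1) t = Complex.exp (-t ^ 2 / 2) := by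
    rw [charFun_gaussianReal]
    congr 1
    push_cast
    ring
  simp only [ProbabilityMeasure.coe_mk]
  rw [h3]
  refine h2.congr fun n => ?_
  rw [charFun_sumLaw, charFun_uniform]

/-- The number of the words of length `n` whose sum is at most `t √n`. -/
theorem clt_count (a : I → ℤ) (h0 : ∑ i, a i = 0) (hne : ∃ i, a i ≠ 0) (t : ℝ) :
    Tendsto (fun n : ℕ => (Nat.card {g : Fin n → I // ((∑ k, a (g k) : ℤ) : ℝ) ≤ t * √(n : ℝ)} : ℝ) /
      (Fintype.card I : ℝ) ^ n) atTop
      (𝓝 ((gaussianReal 0 1).real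
        (Set.Iic (t / √((∑ i, (a i : ℝ) ^ 2) / Fintype.card I))))) := by
  let _ : MeasurableSpace I := ⊤
  have hc : (0 : ℝ) < Fintype.card I := by exact_mod_cast Fintype.card_pos
  have hA : (0 : ℝ) < ∑ i, (a i : ℝ) ^ 2 := by
    obtain ⟨i, hi⟩ := hne
    have h3 : (0 : ℝ) < (a i : ℝ) ^ 2 := by positivity
    exact lt_of_lt_of_le h3 (Finset.single_le_sum (f := fun i => (a i : ℝ) ^ 2)
      (fun k _ => sq_nonneg _) (Finset.mem_univ i))
  set σ : ℝ := √((∑ i, (a i : ℝ) ^ 2) / Fintype.card I) with hσ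
  have hσ0 : 0 < σ := Real.sqrt_pos.2 (by positivity)
  have hσ2 : σ ^ 2 = (∑ i, (a i : ℝ) ^ 2) / Fintype.card I := Real.sq_sqrt (by positivity)
  let x : I → ℝ := fun i => (a i : ℝ) / σ
  have hx0 : ∑ i, x i = 0 := by
    have : ∑ i, x i = ((∑ i, a i : ℤ) : ℝ) / σ := by
      rw [Int.cast_sum, Finset.sum_div]
    rw [this, h0]
    simp
  have hx1 : ∑ i, x i ^ 2 = Fintype.card I := by
    have : ∑ i, x i ^ 2 = (∑ i, (a i : ℝ) ^ 2) / σ ^ 2 := by
      rw [Finset.sum_div]
      exact Finset.sum_congr rfl fun i _ => div_pow _ _ _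
    rw [this, hσ2]
    field_simp
  have h2 := tendsto_sumLaw x hx0 hx1
  have h3 := ProbabilityMeasure.tendsto_measure_of_null_frontier_of_tendsto' h2
    (E := Set.Iic (t / σ)) (by
      have := nullSingletonClass_gaussianReal (μ := 0) (v := 1) one_ne_zero
      rw [frontier_Iic]
      show gaussianReal 0 1 {t / σ} = 0
      exact measure_singleton _)
  have h4 := (ENNReal.tendsto_toReal (a := gaussianReal 0 1 (Set.Iic (t / σ)))
    (measure_ne_top _ _)).comp h3
  refine (h4.congr' ?_)
  filter_upwards [eventually_gt_atTop 0] with n hn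
  have hn' : (0 : ℝ) < √(n : ℝ) := Real.sqrt_pos.2 (by exact_mod_cast hn)
  show (sumLaw x n).real (Set.Iic (t / σ)) = _
  unfold sumLaw
  rw [map_measureReal_apply (measurable_of_finite _) measurableSet_Iic, uniform_real,
    Fintype.card_fun, Fintype.card_fin]
  push_cast
  congr 2
  refine Nat.card_congr (Equiv.subtypeEquivRight fun g => ?_)
  rw [Set.mem_preimage, Set.mem_Iic]
  have h5 : ∑ k, x (g k) = (∑ k, (a (g k) : ℝ)) / σ := (Finset.sum_div _ _ _).symm
  rw [h5, inv_mul_eq_div, div_le_iff₀ hn', div_le_iff₀ hσ0]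
  have h6 : t / σ * √(n : ℝ) * σ = t * √(n : ℝ) := by
    field_simp
  rw [h6]

end

end Pool.Agent.Q60.PL
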