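import Pool.Agent.Y163.MW.Asm
import Pool.Agent.Y954.MW.B1

/-!
# The kernels of the powers of the lowering operator of a representation of `sl(2)`
-/

set_option autoImplicit false

open Module

namespace Pool.Agent.Q60.PL

open Pool.Agent.Y163.MW

universe u v

section count

/-- The number of the weights `l - 2 i` in the window `(-k, k]`. -/
lemma card_win (l k : ℕ) :
    (Finset.univ.filter (fun i : Fin (l + 1) =>
      -(k : ℤ) < (l : ℤ) - 2 * (i : ℕ) ∧ (l : ℤ) - 2 * (i : ℕ) ≤ k)).card = min k (l + 1) := by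
  rw [Finset.card_filter,
    Fin.sum_univ_eq_sum_range (fun i => if -(k : ℤ) < (l : ℤ) - 2 * (i : ℕ) ∧
      (l : ℤ) - 2 * (i : ℕ) ≤ k then 1 else 0) (l + 1), ← Finset.sum_filter,
    Finset.sum_const, smul_eq_mul, mul_one]
  have h : (Finset.range (l + 1)).filter (fun i : ℕ => -(k : ℤ) < (l : ℤ) - 2 * (i : ℕ) ∧
      (l : ℤ) - 2 * (i : ℕ) ≤ k) = Finset.Ico ((l - k + 1) / 2) (min (l + 1) ((l + k + 1) / 2)) := by
    ext i
    simp only [Finset.mem_filter, Finset.mem_range, Finset.mem_Ico]
    omega
  rw [h, Nat.card_Ico]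
  omega

/-- Two families of integers with the same numbers of occurrences differ by a bijection. -/
lemma exists_equiv {I J : Type*} [Finite I] [Finite J] (f : I → ℤ) (g : J → ℤ)
    (h : ∀ r, Nat.card {i // f i = r} = Nat.card {j // g j = r}) :
    ∃ E : I ≃ J, ∀ i, g (E i) = f i := by
  have h1 : ∀ r, Nonempty ({i // f i = r} ≃ {j // g j = r}) := fun r => by
    rw [← Finite.card_eq]
    exact h r
  let E : ∀ r, {i // f i = r} ≃ {j // g j = r} := fun r => (h1 r).some
  refine ⟨(Equiv.sigmaFiberEquiv f).symm.trans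
    ((Equiv.sigmaCongrRight E).trans (Equiv.sigmaFiberEquiv g)), fun i => ?_⟩
  exact (E (f i) ⟨i, rfl⟩).2

end count

section

variable {K : Type u} [Field K] {V : Type v} [AddCommGroup V] [Module K V]
  {gr : ℤ → Submodule K V} {N : Module.End K V}

lemma card_window (S : Strings gr N) (k : ℕ) :
    Nat.card {p : S.P // -(k : ℤ) < S.ct p ∧ S.ct p ≤ k} = ∑ s, min k (S.len s + 1) := by
  classical
  rw [Nat.card_eq_fintype_card, Fintype.card_subtype, Finset.card_filter, Fintype.sum_sigma]
  refine Finset.sum_congr rfl fun s _ => ?_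
  rw [← card_win (S.len s) k, Finset.card_filter]
  rfl

lemma finrank_ker_strings [Module.Finite K V] (S : Strings gr N) (k : ℕ) :
    finrank K (LinearMap.ker (N ^ k)) = Nat.card {p : S.P // -(k : ℤ) < S.ct p ∧ S.ct p ≤ k} := by
  rw [card_window S k]
  have h1 := LinearMap.finrank_range_add_finrank_ker (N ^ k)
  rw [Pool.Agent.Y461.MW.finrank_eq S k] at h1
  have h2 : finrank K V = ∑ s, (S.len s + 1) := by
    rw [finrank_eq_card_basis S.b, Fintype.card_sigma]
    simp
  have h3 : ∑ s, (S.len s + 1) = ∑ s, (S.len s + 1 - k) + ∑ s, min k (S.len s + 1) := by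
    rw [← Finset.sum_add_distrib]
    refine Finset.sum_congr rfl fun s _ => ?_
    omega
  omega

/-- The kernels of the powers of a centred operator. -/
theorem finrank_ker_centred [Module.Finite K V] (hgr : DirectSum.IsInternal gr)
    (hN : ∀ r, ∀ x ∈ gr r, N x ∈ gr (r - 2)) (hC : Centred gr N) {I : Type} [Finite I]
    (b : Basis I K V) (a : I → ℤ) (hb : ∀ i, b i ∈ gr (a i)) (k : ℕ) :
    finrank K (LinearMap.ker (N ^ k)) = Nat.card {i // -(k : ℤ) < a i ∧ a i ≤ k} := by
  obtain ⟨S⟩ := Pool.Agent.Y153.MW.stA K V gr N hgr hN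
  rw [finrank_ker_strings S k]
  have h1 := (Pool.Agent.Y614.MW.stF K V gr N hgr S).1 hC
  have h2 : ∀ p, S.wt p = S.ct p := fun p => by
    unfold Strings.wt Strings.ct
    rw [h1 p.1]
  obtain ⟨E, hE⟩ := exists_equiv S.ct a (fun r => by
    rw [← finrank_gr hgr.submodule_iSupIndep b a hb r,
      finrank_gr hgr.submodule_iSupIndep S.b S.wt S.mem' r]
    simp only [h2])
  refine Nat.card_congr (E.subtypeEquiv fun p => ?_)
  rw [hE]

end

section

variable {K : Type u} [Field K] [CharZero K] {V : Type v} [AddCommGroup V] [Module K V]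
  {N e h : Module.End K V} {I : Type} [Finite I] {b : Basis I K V} {a : I → ℤ}

/-- The grading by the weights. -/
def wgr (b : Basis I K V) (a : I → ℤ) (r : ℤ) : Submodule K V :=
  Submodule.span K (b '' {i | a i = r})

omit [CharZero K] [Finite I] in
lemma mem_wgr (b : Basis I K V) (a : I → ℤ) (r : ℤ) (x : V) :
    x ∈ wgr b a r ↔ ∀ i, a i ≠ r → b.repr x i = 0 := by
  rw [wgr, b.mem_span_image]
  constructor
  · intro h i hi
    by_contra h0
    exact hi (h (Finsupp.mem_support_iff.2 h0))
  · intro h i hi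
    by_contra h0
    exact (Finsupp.mem_support_iff.1 hi) (h i h0)

lemma wgr_internal (b : Basis I K V) (a : I → ℤ) : DirectSum.IsInternal (wgr b a) := by
  classical
  have := Fintype.ofFinite I
  apply DirectSum.isInternal_submodule_of_iSupIndep_of_iSup_eq_top
  · rw [iSupIndep_iff_finsetSum_eq_zero_imp_eq_zero]
    intro s v hv hsum r hr
    apply b.ext_elem
    intro i
    rw [map_zero, Finsupp.zero_apply]
    by_cases hi : a i = r
    · have h1 : b.repr (∑ r ∈ s, v r) i = 0 := by rw [hsum]; simp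
      rw [map_sum, Finsupp.finsetSum_apply, Finset.sum_eq_single r] at h1
      · exact h1
      · intro r' hr' hne
        exact (mem_wgr b a r' _).1 (hv r' hr') i (by rw [hi]; exact hne.symm)
      · exact fun h => absurd hr h
    · exact (mem_wgr b a r _).1 (hv r hr) i hi
  · rw [eq_top_iff, ← b.span_eq, Submodule.span_le]
    rintro _ ⟨i, rfl⟩
    exact Submodule.mem_iSup_of_mem (a i) (Submodule.subset_span ⟨i, rfl, rfl⟩)

lemma mem_wgr_iff_eig (H : IsSl2 N b a e h) (r : ℤ) (x : V) :
    x ∈ wgr b a r ↔ h x = (r : K) • x := by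
  classical
  have := Fintype.ofFinite I
  have h1 : ∀ i, b.repr (h x) i = (a i : K) * b.repr x i := by
    intro i
    have : (b.coord i) ∘ₗ h = (a i : K) • b.coord i := by
      refine b.ext fun j => ?_
      rw [LinearMap.comp_apply, H.wt j, map_smul, LinearMap.smul_apply, Basis.coord_apply,
        Basis.repr_self, smul_eq_mul, smul_eq_mul]
      by_cases hij : j = i
      · subst hij; rfl
      · rw [Finsupp.single_eq_of_ne (Ne.symm hij)]; ring
    exact DFunLike.congr_fun this x
  rw [mem_wgr]
  constructor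
  · intro hx
    apply b.ext_elem
    intro i
    rw [h1, map_smul, Finsupp.smul_apply, smul_eq_mul]
    by_cases hi : a i = r
    · rw [hi]
    · rw [hx i hi]; ring
  · intro hx i hi
    have h2 := h1 i
    rw [hx, map_smul, Finsupp.smul_apply, smul_eq_mul] at h2
    have h3 : ((r : K) - (a i : K)) * b.repr x i = 0 := by rw [sub_mul, h2, sub_self]
    rcases mul_eq_zero.1 h3 with h4 | h4
    · exfalso
      apply hi
      have : (r : K) = (a i : K) := sub_eq_zero.1 h4
      exact_mod_cast this.symm
    · exact h4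

lemma wgr_N (H : IsSl2 N b a e h) : ∀ r, ∀ x ∈ wgr b a r, N x ∈ wgr b a (r - 2) := by
  intro r x hx
  rw [mem_wgr_iff_eig H] at hx ⊢
  have h1 := congrArg (fun f : Module.End K V => f x) H.hN
  simp only [LinearMap.sub_apply, Module.End.mul_apply, LinearMap.smul_apply] at h1
  rw [sub_eq_iff_eq_add.1 h1, hx, map_smul]
  push_cast
  rw [sub_smul, neg_smul]
  abel

lemma wgr_centred (H : IsSl2 N b a e h) : Centred (wgr b a) N := by
  have := Fintype.ofFinite I
  intro m
  obtain ⟨h1, h2⟩ := Pool.Agent.Y141.MW.stL K V N I b a e h H m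
  constructor
  · intro x hx hx0
    apply h1 x _ hx0
    have := (mem_wgr_iff_eig H m x).1 hx
    simpa using this
  · intro y hy
    have hy' := (mem_wgr_iff_eig H (-(m : ℤ)) y).1 hy
    obtain ⟨x, hx, hxy⟩ := h2 y (by simpa using hy')
    refine ⟨x, ?_, hxy⟩
    rw [mem_wgr_iff_eig H]
    simpa using hx

omit [CharZero K] [Finite I] in
lemma mem_wgr_self (b : Basis I K V) (a : I → ℤ) (i : I) : b i ∈ wgr b a (a i) :=
  Submodule.subset_span ⟨i, rfl, rfl⟩

/-- The kernels of the powers of the lowering operator. -/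
theorem finrank_ker_sl2 (H : IsSl2 N b a e h) (k : ℕ) :
    finrank K (LinearMap.ker (N ^ k)) = Nat.card {i // -(k : ℤ) < a i ∧ a i ≤ k} := by
  have := Fintype.ofFinite I
  have := Module.Finite.of_basis b
  exact finrank_ker_centred (wgr_internal b a) (wgr_N H) (wgr_centred H) b a
    (mem_wgr_self b a) k

end

end Pool.Agent.Q60.PL
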