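import Pool.Agent.Q60.PL.Gauss
import Pool.Agent.Q60.PL.Ker

/-!
# The Rayleigh law
-/

set_option autoImplicit false

open MeasureTheory ProbabilityTheory Filter Topology

namespace Pool.Agent.Q60.PL

/-- The distribution function of the standard normal law. -/
noncomputable def Phi (x : ℝ) : ℝ := (gaussianReal 0 1).real (Set.Iic x)

lemma Phi_sub {x y : ℝ} (h : x ≤ y) : Phi y - Phi x = ∫ u in x..y, gaussianPDFReal 0 1 u := by
  have h1 : Set.Iic y = Set.Iic x ∪ Set.Ioc x y := (Set.Iic_union_Ioc_eq_Iic h).symm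
  unfold Phi
  rw [h1, measureReal_union (Set.Iic_disjoint_Ioc le_rfl) measurableSet_Ioc, add_sub_cancel_left,
    measureReal_def, gaussianReal_apply_eq_integral 0 one_ne_zero, ENNReal.toReal_ofReal,
    intervalIntegral.integral_of_le h]
  exact integral_nonneg fun _ => gaussianPDFReal_nonneg _ _ _

lemma Phi_sub' (x y : ℝ) : Phi y - Phi x = ∫ u in x..y, gaussianPDFReal 0 1 u := by
  rcases le_total x y with h | h
  · exact Phi_sub h
  · rw [intervalIntegral.integral_symm, ← Phi_sub h]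
    ring

lemma continuous_pdf : Continuous (gaussianPDFReal 0 1) := by
  unfold gaussianPDFReal
  fun_prop

lemma hasDerivAt_Phi (x : ℝ) : HasDerivAt Phi (gaussianPDFReal 0 1 x) x := by
  have h1 : HasDerivAt (fun y => ∫ u in (0 : ℝ)..y, gaussianPDFReal 0 1 u)
      (gaussianPDFReal 0 1 x) x :=
    intervalIntegral.integral_hasDerivAt_right (continuous_pdf.intervalIntegrable _ _)
      (continuous_pdf.stronglyMeasurableAtFilter _ _) continuous_pdf.continuousAt
  have h2 : Phi = fun y => (∫ u in (0 : ℝ)..y, gaussianPDFReal 0 1 u) + Phi 0 := by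
    funext y
    rw [← Phi_sub']
    ring
  rw [h2]
  exact h1.add_const _

lemma continuous_Phi : Continuous Phi :=
  continuous_iff_continuousAt.2 fun x => (hasDerivAt_Phi x).continuousAt

lemma Phi_neg (x : ℝ) : Phi (-x) = 1 - Phi x := by
  have h1 : (gaussianReal 0 1).map (fun y => -y) = gaussianReal 0 1 := by
    rw [gaussianReal_map_neg]
    simp
  have h2 : Phi (-x) = (gaussianReal 0 1).real (Set.Ici x) := by
    unfold Phi
    conv_lhs => rw [← h1]
    rw [map_measureReal_apply measurable_neg measurableSet_Iic]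
    congr 1
    ext y
    simp
  have h3 : (gaussianReal 0 1).real (Set.Ici x) = (gaussianReal 0 1).real (Set.Ioi x) := by
    have := nullSingletonClass_gaussianReal (μ := 0) (v := 1) one_ne_zero
    exact measureReal_congr Ioi_ae_eq_Ici.symm
  rw [h2, h3, ← Set.compl_Iic, probReal_compl_eq_one_sub measurableSet_Iic]
  rfl

lemma Phi_zero : Phi 0 = 1 / 2 := by
  have := Phi_neg 0
  rw [neg_zero] at this
  linarith

section

variable {I : Type} [Fintype I]

/-- The number of the words of length `n` whose sum is in the window `(-k, k]`. -/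
noncomputable def win (a : I → ℤ) (n k : ℕ) : ℕ :=
  Nat.card {g : Fin n → I // -(k : ℤ) < ∑ i, a (g i) ∧ ∑ i, a (g i) ≤ k}

/-- The number of words with sum at most `x`. -/
noncomputable def cnt (a : I → ℤ) (n : ℕ) (x : ℝ) : ℕ :=
  Nat.card {g : Fin n → I // ((∑ k, a (g k) : ℤ) : ℝ) ≤ x}

lemma cnt_mono (a : I → ℤ) (n : ℕ) {x y : ℝ} (h : x ≤ y) : cnt a n x ≤ cnt a n y :=
  Nat.card_le_card_of_injective (fun g => ⟨g.1, g.2.trans h⟩) fun g g' h => by
    apply Subtype.ext
    exact congrArg (fun z => z.1) h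

lemma win_eq_cnt (a : I → ℤ) (hsym : ∀ r : ℤ, Nat.card {i : I // a i = r} =
    Nat.card {i : I // a i = -r}) (n k : ℕ) (hk : 0 < k) :
    (win a n k : ℝ) = cnt a n k + cnt a n ((k : ℝ) - 1) - (Fintype.card I : ℝ) ^ n := by
  classical
  obtain ⟨E, hE⟩ := exists_equiv a (fun i => -a i) (fun r => by
    rw [hsym]
    exact Nat.card_congr (Equiv.subtypeEquivRight fun i => by omega))
  have h1 : cnt a n ((k : ℝ) - 1) = Nat.card {g : Fin n → I // -(k : ℤ) < ∑ i, a (g i)} := by
    refine Nat.card_congr ((Equiv.arrowCongr (Equiv.refl _) E).subtypeEquiv fun g => ?_)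
    have h2 : ∑ i, a ((Equiv.arrowCongr (Equiv.refl (Fin n)) E) g i) = -∑ i, a (g i) := by
      rw [← Finset.sum_neg_distrib]
      refine Finset.sum_congr rfl fun i _ => ?_
      have := hE (g i)
      simp only [Equiv.arrowCongr_apply, Equiv.coe_refl, Equiv.refl_symm, Function.comp_apply, id]
      omega
    rw [h2]
    have h3 : (((∑ i, a (g i) : ℤ) : ℝ) ≤ (k : ℝ) - 1) ↔ (∑ i, a (g i) : ℤ) ≤ (k : ℤ) - 1 := by
      have : ((k : ℝ) - 1) = (((k : ℤ) - 1 : ℤ) : ℝ) := by push_cast; ring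
      rw [this]
      exact Int.cast_le
    rw [h3]
    omega
  have h4 : cnt a n k = Nat.card {g : Fin n → I // ∑ i, a (g i) ≤ (k : ℤ)} := by
    refine Nat.card_congr (Equiv.subtypeEquivRight fun g => ?_)
    have : (k : ℝ) = ((k : ℤ) : ℝ) := by push_cast; ring
    rw [this]
    exact Int.cast_le
  rw [h1, h4]
  have h5 : win a n k + (Fintype.card I) ^ n =
      Nat.card {g : Fin n → I // ∑ i, a (g i) ≤ (k : ℤ)} +
        Nat.card {g : Fin n → I // -(k : ℤ) < ∑ i, a (g i)} := by
    have h6 : (Fintype.card I) ^ n = (Finset.univ : Finset (Fin n → I)).card := by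
      rw [Finset.card_univ, Fintype.card_fun, Fintype.card_fin]
    unfold win
    rw [h6, Nat.card_eq_fintype_card, Nat.card_eq_fintype_card, Nat.card_eq_fintype_card,
      Fintype.card_subtype, Fintype.card_subtype, Fintype.card_subtype]
    rw [← Finset.card_union_add_card_inter (Finset.univ.filter fun g : Fin n → I =>
      ∑ i, a (g i) ≤ (k : ℤ)) (Finset.univ.filter fun g : Fin n → I => -(k : ℤ) < ∑ i, a (g i))]
    rw [add_comm]
    congr 1
    · congr 1
      ext g
      simp only [Finset.mem_univ, Finset.mem_union, Finset.mem_filter, true_and, true_iff]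
      omega
    · congr 1
      ext g
      simp only [Finset.mem_inter, Finset.mem_filter, Finset.mem_univ, true_and]
      omega
  have h7 : ((win a n k + (Fintype.card I) ^ n : ℕ) : ℝ) = _ := congrArg Nat.cast h5
  push_cast at h7
  linarith

lemma sum_eq_zero (a : I → ℤ) (hsym : ∀ r : ℤ, Nat.card {i : I // a i = r} =
    Nat.card {i : I // a i = -r}) : ∑ i, a i = 0 := by
  obtain ⟨E, hE⟩ := exists_equiv a (fun i => -a i) (fun r => by
    rw [hsym]
    exact Nat.card_congr (Equiv.subtypeEquivRight fun i => by omega))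
  have h1 : ∑ i, -a i = ∑ i, a i := by
    rw [← Equiv.sum_comp E (fun i => -a i)]
    exact Finset.sum_congr rfl fun i _ => hE i
  rw [Finset.sum_neg_distrib] at h1
  omega

/-- The second moment. -/
noncomputable def mom (a : I → ℤ) : ℝ := ∑ i, (a i : ℝ) ^ 2

lemma tendsto_cnt [Nonempty I] (a : I → ℤ) (h0 : ∑ i, a i = 0) (hne : ∃ i, a i ≠ 0) {t : ℝ}
    {x : ℕ → ℝ} (hx : Tendsto (fun n : ℕ => x n / √(n : ℝ)) atTop (𝓝 t)) :
    Tendsto (fun n : ℕ => (cnt a n (x n) : ℝ) / (Fintype.card I : ℝ) ^ n) atTop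
      (𝓝 (Phi (t / √(mom a / Fintype.card I)))) := by
  set σ := √(mom a / Fintype.card I) with hσ
  have hclt := fun s : ℝ => clt_count a h0 hne s
  have hcont : Continuous (fun s : ℝ => Phi (s / σ)) :=
    continuous_Phi.comp (continuous_id.div_const _)
  have hmono : ∀ n {x y : ℝ}, x ≤ y → (cnt a n x : ℝ) / (Fintype.card I : ℝ) ^ n ≤
      (cnt a n y : ℝ) / (Fintype.card I : ℝ) ^ n := by
    intro n x y hxy
    have : (cnt a n x : ℝ) ≤ cnt a n y := by exact_mod_cast cnt_mono a n hxy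
    gcongr
  rw [tendsto_order]
  constructor
  · intro c hc
    obtain ⟨s, hs, hcs⟩ : ∃ s < t, c < Phi (s / σ) := by
      have h1 : ∀ᶠ s in 𝓝[<] t, c < Phi (s / σ) :=
        (hcont.continuousAt.tendsto.eventually (eventually_gt_nhds hc)).filter_mono
          nhdsWithin_le_nhds
      obtain ⟨s, hs1, hs2⟩ := (h1.and self_mem_nhdsWithin).exists
      exact ⟨s, hs2, hs1⟩
    filter_upwards [(hclt s).eventually (eventually_gt_nhds hcs),
      hx.eventually (eventually_gt_nhds hs), eventually_gt_atTop 0] with n h1 h2 h3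
    have h4 : (0 : ℝ) < √(n : ℝ) := Real.sqrt_pos.2 (by exact_mod_cast h3)
    refine lt_of_lt_of_le h1 (hmono n ?_)
    exact ((lt_div_iff₀ h4).1 h2).le
  · intro c hc
    obtain ⟨s, hs, hcs⟩ : ∃ s > t, Phi (s / σ) < c := by
      have h1 : ∀ᶠ s in 𝓝[>] t, Phi (s / σ) < c :=
        (hcont.continuousAt.tendsto.eventually (eventually_lt_nhds hc)).filter_mono
          nhdsWithin_le_nhds
      obtain ⟨s, hs1, hs2⟩ := (h1.and self_mem_nhdsWithin).exists
      exact ⟨s, hs2, hs1⟩
    filter_upwards [(hclt s).eventually (eventually_lt_nhds hcs),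
      hx.eventually (eventually_lt_nhds hs), eventually_gt_atTop 0] with n h1 h2 h3
    have h4 : (0 : ℝ) < √(n : ℝ) := Real.sqrt_pos.2 (by exact_mod_cast h3)
    refine lt_of_le_of_lt (hmono n ?_) h1
    exact ((div_lt_iff₀ h4).1 h2).le

/-- The windows. -/
theorem tendsto_win [Nonempty I] (a : I → ℤ) (hsym : ∀ r : ℤ, Nat.card {i : I // a i = r} =
    Nat.card {i : I // a i = -r}) (hne : ∃ i, a i ≠ 0) {t : ℝ} (ht : 0 ≤ t) {k : ℕ → ℕ}
    (hk : Tendsto (fun n : ℕ => (k n : ℝ) / √(n : ℝ)) atTop (𝓝 t)) :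
    Tendsto (fun n : ℕ => (win a n (k n) : ℝ) / (Fintype.card I : ℝ) ^ n) atTop
      (𝓝 (2 * Phi (t / √(mom a / Fintype.card I)) - 1)) := by
  have hc : (0 : ℝ) < Fintype.card I := by exact_mod_cast Fintype.card_pos
  have h0 := sum_eq_zero a hsym
  have h1 := tendsto_cnt a h0 hne hk
  have hk' : Tendsto (fun n : ℕ => ((k n : ℝ) - 1) / √(n : ℝ)) atTop (𝓝 t) := by
    have h2 : Tendsto (fun n : ℕ => (√(n : ℝ))⁻¹) atTop (𝓝 0) :=
      tendsto_inv_atTop_zero.comp (Real.tendsto_sqrt_atTop.comp tendsto_natCast_atTop_atTop)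
    have h3 := hk.sub h2
    rw [sub_zero] at h3
    refine h3.congr fun n => ?_
    rw [sub_div, one_div]
  have h2 := tendsto_cnt a h0 hne hk'
  have h3 := (h1.add h2).sub_const 1
  rw [show Phi (t / √(mom a / Fintype.card I)) + Phi (t / √(mom a / Fintype.card I)) - 1 =
    2 * Phi (t / √(mom a / Fintype.card I)) - 1 by ring] at h3
  -- the case `k n = 0`
  have h4 : ∀ n, (win a n (k n) : ℝ) / (Fintype.card I : ℝ) ^ n =
      if k n = 0 then 0 else ((cnt a n (k n) : ℝ) / (Fintype.card I : ℝ) ^ n +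
        (cnt a n ((k n : ℝ) - 1) : ℝ) / (Fintype.card I : ℝ) ^ n - 1) := by
    intro n
    have h5 : (Fintype.card I : ℝ) ^ n ≠ 0 := pow_ne_zero _ hc.ne'
    split_ifs with h
    · have : win a n (k n) = 0 := by
        unfold win
        rw [h]
        have : IsEmpty {g : Fin n → I // -((0 : ℕ) : ℤ) < ∑ i, a (g i) ∧
            ∑ i, a (g i) ≤ ((0 : ℕ) : ℤ)} := ⟨fun g => by
          have := g.2
          omega⟩
        exact Nat.card_of_isEmpty
      rw [this]
      simp
    · rw [win_eq_cnt a hsym n (k n) (Nat.pos_of_ne_zero h)]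
      field_simp
  rcases ht.eq_or_lt with rfl | ht
  · rw [zero_div, Phi_zero] at h3 ⊢
    norm_num at h3 ⊢
    have h6 : Tendsto (fun n : ℕ => |(cnt a n (k n) : ℝ) / (Fintype.card I : ℝ) ^ n +
        (cnt a n ((k n : ℝ) - 1) : ℝ) / (Fintype.card I : ℝ) ^ n - 1|) atTop (𝓝 0) := by
      have := h3.abs
      rwa [abs_zero] at this
    refine squeeze_zero (fun n => by positivity) (fun n => ?_) h6
    rw [h4]
    split_ifs with h
    · positivity
    · exact le_abs_self _
  · have h7 : ∀ᶠ n in atTop, k n ≠ 0 := by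
      filter_upwards [hk.eventually (eventually_gt_nhds ht)] with n hn h
      rw [h] at hn
      simp at hn
    refine h3.congr' ?_
    filter_upwards [h7] with n hn
    rw [h4, if_neg hn]

end

/-- The slopes of concave functions converge. -/
theorem tendsto_slope {f : ℕ → ℕ → ℝ} {G : ℝ → ℝ} {G' t : ℝ} (ht : 0 < t)
    (hf : ∀ n k, f n (k + 2) + f n k ≤ 2 * f n (k + 1))
    (hG : ∀ s : ℝ, 0 ≤ s → ∀ k : ℕ → ℕ, Tendsto (fun n : ℕ => (k n : ℝ) / √(n : ℝ)) atTop (𝓝 s) →
      Tendsto (fun n => f n (k n)) atTop (𝓝 (G s)))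
    (hG' : HasDerivAt G G' t) {k : ℕ → ℕ}
    (hk : Tendsto (fun n : ℕ => (k n : ℝ) / √(n : ℝ)) atTop (𝓝 t)) :
    Tendsto (fun n : ℕ => √(n : ℝ) * (f n (k n + 1) - f n (k n))) atTop (𝓝 G') := by
  -- the differences decrease
  set d : ℕ → ℕ → ℝ := fun n k => f n (k + 1) - f n k with hd
  have hanti : ∀ n, Antitone (d n) := fun n => antitone_nat_of_succ_le fun k => by
    have := hf n k
    simp only [hd]
    linarith
  have hup : ∀ n k m, f n (k + m) - f n k ≤ m * d n k := by
    intro n k m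
    induction m with
    | zero => simp
    | succ m ih =>
      have h1 : d n (k + m) ≤ d n k := hanti n (Nat.le_add_right _ _)
      have h2 : f n (k + (m + 1)) - f n (k + m) = d n (k + m) := rfl
      push_cast
      linarith
  have hlow : ∀ n k m, m * d n (k + m) ≤ f n (k + m) - f n k := by
    intro n k m
    induction m with
    | zero => simp
    | succ m ih =>
      have h1 : d n (k + (m + 1)) ≤ d n (k + m) := hanti n (by omega)
      have h2 : f n (k + (m + 1)) - f n (k + m) = d n (k + m) := rfl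
      have h3 : (m : ℝ) * d n (k + (m + 1)) ≤ m * d n (k + m) := by gcongr
      push_cast
      linarith
  have hsq : Tendsto (fun n : ℕ => √(n : ℝ)) atTop atTop :=
    Real.tendsto_sqrt_atTop.comp tendsto_natCast_atTop_atTop
  have hfloor : ∀ δ : ℝ, 0 < δ → Tendsto (fun n : ℕ => (⌊δ * √(n : ℝ)⌋₊ : ℝ) / √(n : ℝ)) atTop
      (𝓝 δ) := fun δ hδ => (tendsto_nat_floor_mul_div_atTop hδ.le).comp hsq
  rw [tendsto_order]
  constructor
  · intro c hc
    -- a difference quotient to the right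
    have h1 : Tendsto (fun δ : ℝ => δ⁻¹ * (G (t + δ) - G t)) (𝓝[>] 0) (𝓝 G') := by
      have := hG'.tendsto_slope_zero_right
      simpa [smul_eq_mul] using this
    obtain ⟨δ, hcδ, hδ⟩ := ((h1.eventually (eventually_gt_nhds hc)).and self_mem_nhdsWithin).exists
    have hδ : 0 < δ := hδ
    set m : ℕ → ℕ := fun n => ⌊δ * √(n : ℝ)⌋₊ with hm
    have hm' := hfloor δ hδ
    have hkm : Tendsto (fun n : ℕ => ((k n + m n : ℕ) : ℝ) / √(n : ℝ)) atTop (𝓝 (t + δ)) := by
      refine (hk.add hm').congr fun n => ?_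
      push_cast
      rw [add_div]
    have h2 : Tendsto (fun n : ℕ => ((m n : ℝ) / √(n : ℝ))⁻¹ * (f n (k n + m n) - f n (k n))) atTop
        (𝓝 (δ⁻¹ * (G (t + δ) - G t))) :=
      (hm'.inv₀ hδ.ne').mul ((hG _ (by linarith) _ hkm).sub (hG _ ht.le _ hk))
    filter_upwards [h2.eventually (eventually_gt_nhds hcδ), hm'.eventually (eventually_gt_nhds hδ),
      eventually_gt_atTop 0] with n h3 h4 h5
    have h6 : (0 : ℝ) < √(n : ℝ) := Real.sqrt_pos.2 (by exact_mod_cast h5)
    have h7 : (0 : ℝ) < m n := by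
      by_contra hcon
      have : (m n : ℝ) = 0 := le_antisymm (not_lt.1 hcon) (Nat.cast_nonneg _)
      change 0 < (m n : ℝ) / _ at h4
      rw [this, zero_div] at h4
      exact lt_irrefl _ h4
    refine lt_of_lt_of_le h3 ?_
    rw [inv_div, div_mul_eq_mul_div, div_le_iff₀ h7]
    have := hup n (k n) (m n)
    calc √(n : ℝ) * (f n (k n + m n) - f n (k n)) ≤ √(n : ℝ) * (m n * d n (k n)) := by gcongr
      _ = _ := by simp only [hd]; ring
  · intro c hc
    have h1 : Tendsto (fun δ : ℝ => (-δ)⁻¹ * (G (t + -δ) - G t)) (𝓝[>] 0) (𝓝 G') := by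
      have h2 := hG'.tendsto_slope_zero_left
      have h3 : Tendsto (fun δ : ℝ => -δ) (𝓝[>] 0) (𝓝[<] 0) := by
        have := tendsto_neg_nhdsGT_neg (a := (0 : ℝ))
        simpa using (tendsto_neg_nhdsGT (a := (0 : ℝ)))
      have := h2.comp h3
      simpa [smul_eq_mul, Function.comp_def] using this
    obtain ⟨δ, ⟨hcδ, hδt⟩, hδ⟩ := (((h1.eventually (eventually_lt_nhds hc)).and
      (eventually_nhdsWithin_of_eventually_nhds (eventually_lt_nhds ht))).and
        self_mem_nhdsWithin).exists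
    have hδ : 0 < δ := hδ
    set m : ℕ → ℕ := fun n => ⌊δ * √(n : ℝ)⌋₊ with hm
    have hm' := hfloor δ hδ
    have hle : ∀ᶠ n in atTop, m n ≤ k n := by
      filter_upwards [(hk.sub hm').eventually (eventually_gt_nhds (sub_pos.2 hδt)),
        eventually_gt_atTop 0] with n h2 h3
      have h6 : (0 : ℝ) < √(n : ℝ) := Real.sqrt_pos.2 (by exact_mod_cast h3)
      rw [← sub_div, lt_div_iff₀ h6, zero_mul, sub_pos] at h2
      have h7 : (m n : ℝ) < k n := h2
      exact_mod_cast h7.le
    have hkm : Tendsto (fun n : ℕ => ((k n - m n : ℕ) : ℝ) / √(n : ℝ)) atTop (𝓝 (t + -δ)) := by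
      refine (hk.sub hm').congr' ?_
      filter_upwards [hle] with n hn
      rw [Nat.cast_sub hn, sub_div]
    have h2 : Tendsto (fun n : ℕ => ((m n : ℝ) / √(n : ℝ))⁻¹ * (f n (k n) - f n (k n - m n))) atTop
        (𝓝 (δ⁻¹ * (G t - G (t + -δ)))) :=
      (hm'.inv₀ hδ.ne').mul ((hG _ ht.le _ hk).sub (hG _ (by linarith) _ hkm))
    have h2' : δ⁻¹ * (G t - G (t + -δ)) = (-δ)⁻¹ * (G (t + -δ) - G t) := by
      rw [inv_neg]; ring
    rw [h2'] at h2
    filter_upwards [h2.eventually (eventually_lt_nhds hcδ), hm'.eventually (eventually_gt_nhds hδ),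
      eventually_gt_atTop 0, hle] with n h3 h4 h5 h8
    have h6 : (0 : ℝ) < √(n : ℝ) := Real.sqrt_pos.2 (by exact_mod_cast h5)
    have h7 : (0 : ℝ) < m n := by
      by_contra hcon
      have : (m n : ℝ) = 0 := le_antisymm (not_lt.1 hcon) (Nat.cast_nonneg _)
      change 0 < (m n : ℝ) / _ at h4
      rw [this, zero_div] at h4
      exact lt_irrefl _ h4
    refine lt_of_le_of_lt ?_ h3
    rw [inv_div, div_mul_eq_mul_div, le_div_iff₀ h7]
    have := hlow n (k n - m n) (m n)
    rw [Nat.sub_add_cancel h8] at this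
    calc √(n : ℝ) * (f n (k n + 1) - f n (k n)) * m n = √(n : ℝ) * (m n * d n (k n)) := by
          simp only [hd]; ring
      _ ≤ √(n : ℝ) * (f n (k n) - f n (k n - m n)) := by gcongr

end Pool.Agent.Q60.PL
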