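import Pool.Agent.Q60.PL.Ray

/-!
# The Rayleigh law for counting functions
-/

set_option autoImplicit false

open MeasureTheory ProbabilityTheory Filter Topology

namespace Pool.Agent.Q60.PL

open Pool.Agent.Y163.MW

/-- The limit of the number of the blocks. -/
noncomputable def rayLim (b A t : ℝ) : ℝ :=
  √(2 * b / (Real.pi * A)) * Real.exp (-(t ^ 2 * b / (2 * A)))

lemma mom_pos {I : Type} [Fintype I] {a : I → ℤ} (h : ∃ i, a i ≠ 0) : 0 < mom a := by
  obtain ⟨i, hi⟩ := h
  have h3 : (0 : ℝ) < (a i : ℝ) ^ 2 := by positivity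
  exact lt_of_lt_of_le h3 (Finset.single_le_sum (f := fun i => (a i : ℝ) ^ 2)
    (fun k _ => sq_nonneg _) (Finset.mem_univ i))

lemma ne_zero_of_two {I : Type} {a : I → ℤ} (h : ∃ i j, a i = a j + 2) : ∃ i, a i ≠ 0 := by
  obtain ⟨i, j, h⟩ := h
  by_cases hi : a i = 0
  · exact ⟨j, by omega⟩
  · exact ⟨i, hi⟩

theorem rayleigh_count {I : Type} [Fintype I] (a : I → ℤ)
    (hsym : ∀ r : ℤ, Nat.card {i : I // a i = r} = Nat.card {i : I // a i = -r})
    (h2 : ∃ i j, a i = a j + 2)
    (hconc : ∀ n k, win a n (k + 2) + win a n k ≤ 2 * win a n (k + 1)) {t : ℝ} (ht : 0 ≤ t) :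
    Tendsto (fun n : ℕ => √(n : ℝ) * (((win a n (⌊t * √(n : ℝ)⌋₊ + 1) : ℝ) -
      win a n ⌊t * √(n : ℝ)⌋₊) / (Fintype.card I : ℝ) ^ n)) atTop
      (𝓝 (rayLim (Fintype.card I) (mom a) t)) := by
  have : Nonempty I := ⟨h2.choose⟩
  have hc : (0 : ℝ) < Fintype.card I := by exact_mod_cast Fintype.card_pos
  have hA := mom_pos (ne_zero_of_two h2)
  have hsq : Tendsto (fun n : ℕ => √(n : ℝ)) atTop atTop :=
    Real.tendsto_sqrt_atTop.comp tendsto_natCast_atTop_atTop
  rcases ht.eq_or_lt with rfl | ht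
  · have h3 := lim_count a hsym h2
    have h4 : rayLim (Fintype.card I) (mom a) 0 =
        √(2 * (Fintype.card I : ℝ) / (Real.pi * ∑ i, (a i : ℝ) ^ 2)) := by
      unfold rayLim mom
      norm_num
    rw [h4]
    refine h3.congr fun n => ?_
    rw [zero_mul, Nat.floor_zero]
    have h5 : win a n 0 = 0 := by
      unfold win
      have : IsEmpty {g : Fin n → I // -((0 : ℕ) : ℤ) < ∑ i, a (g i) ∧
          ∑ i, a (g i) ≤ ((0 : ℕ) : ℤ)} := ⟨fun g => by
        have := g.2
        omega⟩
      exact Nat.card_of_isEmpty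
    have h6 : win a n (0 + 1) = Nat.card {g : Fin n → I // ∑ k, a (g k) = 0 ∨
        ∑ k, a (g k) = 1} := by
      unfold win
      refine Nat.card_congr (Equiv.subtypeEquivRight fun g => ?_)
      push_cast
      omega
    rw [h5, h6, Nat.cast_zero, sub_zero]
  · set σ : ℝ := √(mom a / Fintype.card I) with hσ
    have hσ0 : 0 < σ := Real.sqrt_pos.2 (by positivity)
    have hσ2 : σ ^ 2 = mom a / Fintype.card I := Real.sq_sqrt (by positivity)
    have hG' : HasDerivAt (fun s : ℝ => 2 * Phi (s / σ) - 1)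
        (2 * (gaussianPDFReal 0 1 (t / σ) * (1 / σ))) t := by
      have h3 : HasDerivAt (fun s : ℝ => s / σ) (1 / σ) t := (hasDerivAt_id t).div_const σ
      have h4 := (hasDerivAt_Phi (t / σ)).comp t h3
      exact (h4.const_mul 2).sub_const 1
    have h3 := tendsto_slope (f := fun n k => (win a n k : ℝ) / (Fintype.card I : ℝ) ^ n) ht
      (fun n k => by
        have h4 : ((win a n (k + 2) + win a n k : ℕ) : ℝ) ≤ ((2 * win a n (k + 1) : ℕ) : ℝ) := by
          exact_mod_cast hconc n k
        push_cast at h4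
        have h5 : (0 : ℝ) < (Fintype.card I : ℝ) ^ n := by positivity
        rw [← add_div, ← mul_div_assoc]
        gcongr)
      (fun s hs k hk => tendsto_win a hsym (ne_zero_of_two h2) hs hk) hG'
      (k := fun n => ⌊t * √(n : ℝ)⌋₊) ((tendsto_nat_floor_mul_div_atTop ht.le).comp hsq)
    have h4 : 2 * (gaussianPDFReal 0 1 (t / σ) * (1 / σ)) =
        rayLim (Fintype.card I) (mom a) t := by
      unfold rayLim gaussianPDFReal
      have h5 : (t / σ) ^ 2 = t ^ 2 * Fintype.card I / mom a := by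
        rw [div_pow, hσ2]
        field_simp
      have h6 : √(2 * (Fintype.card I : ℝ) / (Real.pi * mom a)) =
          2 * ((√(2 * Real.pi))⁻¹ * (1 / σ)) := by
        rw [Real.sqrt_eq_iff_mul_self_eq (by positivity) (by positivity)]
        have h7 : √(2 * Real.pi) ^ 2 = 2 * Real.pi := Real.sq_sqrt (by positivity)
        have e : 2 * ((√(2 * Real.pi))⁻¹ * (1 / σ)) * (2 * ((√(2 * Real.pi))⁻¹ * (1 / σ))) =
            4 / (√(2 * Real.pi) ^ 2 * σ ^ 2) := by
          field_simp
          ring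
        rw [e, h7, hσ2]
        have := Real.pi_pos
        field_simp
        ring
      have h8 : -(t / σ - 0) ^ 2 / (2 * ((1 : NNReal) : ℝ)) =
          -(t ^ 2 * (Fintype.card I : ℝ) / (2 * mom a)) := by
        rw [sub_zero, h5]
        push_cast
        field_simp
      rw [h6, h8]
      push_cast
      rw [mul_one]
      ring
    rw [h4] at h3
    refine h3.congr fun n => ?_
    rw [sub_div]

end Pool.Agent.Q60.PL
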