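import Pool.Agent.Q60.PL.WM

/-!
# Limit laws for the powers
-/

set_option autoImplicit false

open Module MeasureTheory ProbabilityTheory Filter Topology

namespace Pool.Agent.Q60.PL

open Pool.Agent.Y143 Pool.Agent.Y163.MW Pool.Agent.H914

universe u v w

section

variable {K : Type u} [Field K] [CharZero K] {V : Type v} [AddCommGroup V] [Module K V]
  {N e h : Module.End K V} {I : Type} [Finite I] {b : Basis I K V} {a : I → ℤ}

lemma ker_concave (H : IsSl2 N b a e h) (k : ℕ) :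
    finrank K (LinearMap.ker (N ^ (k + 2))) + finrank K (LinearMap.ker (N ^ k)) ≤
      2 * finrank K (LinearMap.ker (N ^ (k + 1))) := by
  have := Fintype.ofFinite I
  have := Module.Finite.of_basis b
  obtain ⟨S⟩ := Pool.Agent.Y153.MW.stA K V (wgr b a) N (wgr_internal b a) (wgr_N H)
  rw [finrank_ker_strings S, finrank_ker_strings S, finrank_ker_strings S, card_window,
    card_window, card_window, Finset.mul_sum, ← Finset.sum_add_distrib]
  refine Finset.sum_le_sum fun s _ => ?_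
  omega

end

lemma win_concave_zero {I : Type} [Fintype I] (a : I → ℤ) (k : ℕ) :
    win a 0 (k + 2) + win a 0 k ≤ 2 * win a 0 (k + 1) := by
  have h : ∀ k, 0 < k → win a 0 k = 1 := by
    intro k hk
    unfold win
    have : Nat.card {g : Fin 0 → I // -(k : ℤ) < ∑ i, a (g i) ∧ ∑ i, a (g i) ≤ k} =
        Nat.card (Fin 0 → I) := Nat.card_congr (Equiv.subtypeUnivEquiv (fun g => by
          simp only [Finset.univ_eq_empty, Finset.sum_empty]
          omega))
    rw [this, Nat.card_eq_fintype_card]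
    simp
  have h0 : win a 0 0 = 0 := by
    unfold win
    have : IsEmpty {g : Fin 0 → I // -((0 : ℕ) : ℤ) < ∑ i, a (g i) ∧
        ∑ i, a (g i) ≤ ((0 : ℕ) : ℤ)} := ⟨fun g => by
      have := g.2
      omega⟩
    exact Nat.card_of_isEmpty
  rw [h (k + 2) (by omega), h (k + 1) (by omega)]
  rcases Nat.eq_zero_or_pos k with rfl | hk
  · rw [h0]; omega
  · rw [h k hk]

section

variable {K : Type u} [Field K] {V : Type v} [AddCommGroup V] [Module K V]
  {gr : ℤ → Submodule K V} {N : Module.End K V}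

lemma ct_sym (S : Strings gr N) (r : ℤ) :
    Nat.card {p // S.ct p = r} = Nat.card {p // S.ct p = -r} := by
  let E : S.P ≃ S.P := Equiv.sigmaCongrRight fun s => Fin.revPerm
  refine Nat.card_congr (E.subtypeEquiv ?_)
  rintro ⟨s, i⟩
  have hE : S.ct (E ⟨s, i⟩) = -S.ct ⟨s, i⟩ := by
    show (S.len s : ℤ) - 2 * ((Fin.rev i : Fin (S.len s + 1)) : ℕ) =
      -((S.len s : ℤ) - 2 * (i : ℕ))
    rw [Fin.val_rev]
    have := i.2
    omega
  rw [hE]
  omega

lemma ct_two (S : Strings gr N) (hN : N ≠ 0) : ∃ p p', S.ct p = S.ct p' + 2 := by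
  have : ∃ s, 1 ≤ S.len s := by
    by_contra hcon
    push Not at hcon
    apply hN
    apply S.b.ext
    rintro ⟨s, i⟩
    have h0 : S.len s = 0 := by have := hcon s; omega
    have hi : i = Fin.last (S.len s) := by
      apply Fin.ext
      have := i.2
      rw [Fin.val_last]
      omega
    rw [hi, S.last, LinearMap.zero_apply]
  obtain ⟨s, hs⟩ := this
  refine ⟨⟨s, ⟨0, by omega⟩⟩, ⟨s, ⟨1, by omega⟩⟩, ?_⟩
  unfold Strings.ct
  simp

lemma sum_defect_sq (S : Strings gr N) : mom (fun p => S.wt p - S.ct p) =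
    ((∑ p, S.wt p ^ 2 : ℤ) : ℝ) - ((∑ p, S.ct p ^ 2 : ℤ) : ℝ) := by
  have h5 : ∑ p, S.wt p ^ 2 - ∑ p, S.ct p ^ 2 = ∑ p : S.P, (S.wt p - S.ct p) ^ 2 := by
    rw [S.sum_sq, add_sub_cancel_left, Fintype.sum_sigma]
    refine Finset.sum_congr rfl fun s _ => ?_
    have : ∀ i : Fin (S.len s + 1), (S.wt ⟨s, i⟩ - S.ct ⟨s, i⟩) ^ 2 =
        (S.top s - S.len s) ^ 2 := by
      intro i
      unfold Strings.wt Strings.ct
      simp only
      ring
    rw [Finset.sum_congr rfl (fun i _ => this i), Finset.sum_const, Finset.card_univ,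
      Fintype.card_fin, nsmul_eq_mul]
    push_cast
    ring
  have h6 : ((∑ p, S.wt p ^ 2 - ∑ p, S.ct p ^ 2 : ℤ) : ℝ) =
      ((∑ p : S.P, (S.wt p - S.ct p) ^ 2 : ℤ) : ℝ) := congrArg Int.cast h5
  push_cast at h6 ⊢
  unfold mom
  push_cast
  rw [← h6]

end

/-- `R n` is the cohomology of the `(n + 1)`-st power of an object with the strings `S`. -/
structure PowSeq {Ω : Type w} [Field Ω] [CharZero Ω] (q : ℕ) (R : ℕ → Coh.{v, w} Ω)
    (S : Strings ((R 0).tot q) (R 0).N) : Prop where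
  indep : ∀ n, iSupIndep ((R n).tot q)
  adp : ∀ n, (R n).Adp q (fun g : Fin (n + 1) → S.P => ∑ k, S.ct (g k))
    (fun g : Fin (n + 1) → S.P => ∑ k, S.wt (g k))
  sum_wt : ∑ p, S.wt p = 0

section

variable {Ω : Type w} [Field Ω] [CharZero Ω] {q : ℕ} {R : ℕ → Coh.{v, w} Ω}
  {S : Strings ((R 0).tot q) (R 0).N}

lemma PowSeq.finrank (H : PowSeq q R S) : finrank Ω (R 0).V = Fintype.card S.P :=
  finrank_eq_card_basis S.b

lemma PowSeq.win_eq (H : PowSeq q R S) (n k : ℕ) :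
    win S.ct (n + 1) k = Module.finrank Ω (LinearMap.ker ((R n).N ^ k)) := by
  obtain ⟨b, e, h, hs, -⟩ := H.adp n
  rw [finrank_ker_sl2 hs]
  rfl

/-- The Rayleigh law. -/
theorem PowSeq.rayleigh (H : PowSeq q R S) (hN : (R 0).N ≠ 0) {t : ℝ} (ht : 0 ≤ t) :
    Tendsto (fun n : ℕ => √((n + 1 : ℕ) : ℝ) * ((numBlocks (R n).N ⌊t * √((n + 1 : ℕ) : ℝ)⌋₊ : ℝ) /
      (Module.finrank Ω (R 0).V : ℝ) ^ (n + 1))) atTop
      (𝓝 (rayLim (Module.finrank Ω (R 0).V) ((∑ p, S.ct p ^ 2 : ℤ) : ℝ) t)) := by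
  have h1 := rayleigh_count S.ct (ct_sym S) (ct_two S hN) (fun n k => by
    rcases n with _ | n
    · exact win_concave_zero _ k
    · rw [H.win_eq, H.win_eq, H.win_eq]
      obtain ⟨b, e, h, hs, -⟩ := H.adp n
      exact ker_concave hs k) ht
  have h2 := (tendsto_add_atTop_iff_nat 1).2 h1
  have h3 : mom S.ct = ((∑ p, S.ct p ^ 2 : ℤ) : ℝ) := by
    unfold mom
    push_cast
    rfl
  rw [h3, ← H.finrank] at h2
  refine h2.congr fun n => ?_
  congr 2
  have hle : win S.ct (n + 1) ⌊t * √((n + 1 : ℕ) : ℝ)⌋₊ ≤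
      win S.ct (n + 1) (⌊t * √((n + 1 : ℕ) : ℝ)⌋₊ + 1) := by
    rw [H.win_eq, H.win_eq]
    have : Module.Finite Ω (R n).V := by
      obtain ⟨b, -⟩ := H.adp n
      exact Module.Finite.of_basis b
    apply Submodule.finrank_mono
    intro x hx
    rw [LinearMap.mem_ker] at hx ⊢
    rw [pow_succ', Module.End.mul_apply, hx, map_zero]
  unfold numBlocks
  rw [← H.win_eq, ← H.win_eq, Nat.cast_sub hle]

/-- The central limit theorem for the weights. -/
theorem PowSeq.weights (H : PowSeq q R S) (hne : ∃ p, S.wt p ≠ 0) {t : ℝ} (ht : 0 ≤ t) :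
    Tendsto (fun n : ℕ => (nearWeights (R n) q (t * √((n + 1 : ℕ) : ℝ)) : ℝ) /
      (Module.finrank Ω (R 0).V : ℝ) ^ (n + 1)) atTop
      (𝓝 (normalWindow (t / √(((∑ p, S.wt p ^ 2 : ℤ) : ℝ) / Module.finrank Ω (R 0).V)))) := by
  have : Nonempty S.P := ⟨hne.choose⟩
  have h1 := tendsto_absCnt S.wt H.sum_wt hne ht
  have h2 := (tendsto_add_atTop_iff_nat 1).2 h1
  have h3 : mom S.wt = ((∑ p, S.wt p ^ 2 : ℤ) : ℝ) := by
    unfold mom
    push_cast
    rfl
  rw [h3, ← H.finrank] at h2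
  refine h2.congr fun n => ?_
  rw [nearWeights_eq (H.indep n) (H.adp n)]
  rfl

lemma sum_ct (S : Strings ((R 0).tot q) (R 0).N) : ∑ p, S.ct p = 0 :=
  sum_eq_zero S.ct (ct_sym S)

/-- The central limit theorem for the defects. -/
theorem PowSeq.defects (H : PowSeq q R S) (hne : ∃ p, S.wt p - S.ct p ≠ 0) {t : ℝ} (ht : 0 ≤ t)
    (M : ∀ n, ℤ → Submodule Ω (R n).V) (hM : ∀ n, IsMonodromyFiltrationOn ⊤ (R n).N (M n)) :
    Tendsto (fun n : ℕ => (nearDefects (R n) q (M n) (t * √((n + 1 : ℕ) : ℝ)) : ℝ) /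
      (Module.finrank Ω (R 0).V : ℝ) ^ (n + 1)) atTop
      (𝓝 (normalWindow (t / √((((∑ p, S.wt p ^ 2 : ℤ) : ℝ) - ((∑ p, S.ct p ^ 2 : ℤ) : ℝ)) /
        Module.finrank Ω (R 0).V)))) := by
  have : Nonempty S.P := ⟨hne.choose⟩
  have h1 := tendsto_absCnt (fun p => S.wt p - S.ct p)
    (by rw [Finset.sum_sub_distrib, H.sum_wt, sum_ct, sub_zero]) hne ht
  have h2 := (tendsto_add_atTop_iff_nat 1).2 h1
  rw [sum_defect_sq, ← H.finrank] at h2
  refine h2.congr fun n => ?_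
  rw [nearDefects_eq (H.indep n) (H.adp n) (hM n)]
  unfold absCnt
  simp only [Finset.sum_sub_distrib]
  rfl

/-- If the strings are centred, all the defects are zero. -/
theorem PowSeq.defects_zero (H : PowSeq q R S) (h : ∀ p, S.wt p - S.ct p = 0)
    (M : ∀ n, ℤ → Submodule Ω (R n).V) (hM : ∀ n, IsMonodromyFiltrationOn ⊤ (R n).N (M n)) (n : ℕ) :
    (nearDefects (R n) q (M n) 0 : ℝ) = (Module.finrank Ω (R 0).V : ℝ) ^ (n + 1) := by
  rw [nearDefects_eq (H.indep n) (H.adp n) (hM n)]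
  have h3 : Nat.card {g : Fin (n + 1) → S.P //
      |((∑ k, S.wt (g k) - ∑ k, S.ct (g k) : ℤ) : ℝ)| ≤ 0} = Nat.card (Fin (n + 1) → S.P) :=
    Nat.card_congr (Equiv.subtypeUnivEquiv (fun g => by
      rw [← Finset.sum_sub_distrib, Finset.sum_eq_zero fun k _ => h (g k)]
      simp))
  rw [h3, Nat.card_eq_fintype_card, Fintype.card_fun, Fintype.card_fin, H.finrank]
  push_cast
  rfl

end

end Pool.Agent.Q60.PL
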