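import Pool.Agent.Q60.PL.Ray2

/-!
# Limit laws for the monodromy operator and the Frobenius weights on the powers of a variety
-/

set_option autoImplicit false

open Module MeasureTheory ProbabilityTheory Filter Topology

namespace Pool.Agent.Q60.PL

open Pool.Agent.Y143 Pool.Agent.Y163.MW Pool.Agent.H914

universe u v w

/-- Sums over the values of a function. -/
lemma finsum_card' {G κ : Type*} [Fintype G] (f : G → κ) (φ : κ → ℤ) :
    ∑ᶠ c : κ, φ c * (Nat.card {g // f g = c} : ℤ) = ∑ g, φ (f g) := by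
  classical
  rw [finsum_eq_sum_of_support_subset (s := Finset.univ.image f)]
  · rw [← Finset.sum_fiberwise_of_maps_to (s := Finset.univ) (t := Finset.univ.image f) (g := f)
      (fun g _ => Finset.mem_image_of_mem _ (Finset.mem_univ _))]
    refine Finset.sum_congr rfl fun c _ => ?_
    rw [Finset.sum_congr rfl (g := fun _ => φ c) (fun g hg => by rw [(Finset.mem_filter.1 hg).2]),
      Finset.sum_const, nsmul_eq_mul, mul_comm]
    congr 1
    rw [Nat.card_eq_fintype_card, Fintype.card_subtype]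
  · intro c hc
    rw [Function.mem_support] at hc
    by_contra hcon
    apply hc
    have : IsEmpty {g // f g = c} := ⟨fun g => hcon (by
      rw [Finset.coe_image]
      exact ⟨g.1, Finset.mem_coe.2 (Finset.mem_univ _), g.2⟩)⟩
    rw [Nat.card_of_isEmpty]
    simp

/-- The probability that a standard normal variable is in `[-x, x]`. -/
noncomputable def normalWindow (x : ℝ) : ℝ := (gaussianReal 0 1).real (Set.Icc (-x) x)

lemma normalWindow_eq {x : ℝ} (hx : 0 ≤ x) : normalWindow x = 2 * Phi x - 1 := by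
  have := nullSingletonClass_gaussianReal (μ := 0) (v := 1) one_ne_zero
  have h1 : (gaussianReal 0 1).real (Set.Icc (-x) x) = (gaussianReal 0 1).real (Set.Ioc (-x) x) :=
    measureReal_congr Ioc_ae_eq_Icc.symm
  have h2 : Set.Iic x = Set.Iic (-x) ∪ Set.Ioc (-x) x :=
    (Set.Iic_union_Ioc_eq_Iic (by linarith)).symm
  have h3 : Phi x = Phi (-x) + (gaussianReal 0 1).real (Set.Ioc (-x) x) := by
    unfold Phi
    rw [h2, measureReal_union (Set.Iic_disjoint_Ioc le_rfl) measurableSet_Ioc]
  rw [normalWindow, h1]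
  rw [Phi_neg] at h3
  linarith

section count

variable {I : Type} [Fintype I]

/-- The number of words of length `n` with sum of absolute value at most `x`. -/
noncomputable def absCnt (δ : I → ℤ) (n : ℕ) (x : ℝ) : ℕ :=
  Nat.card {g : Fin n → I // |((∑ k, δ (g k) : ℤ) : ℝ)| ≤ x}

lemma absCnt_le (δ : I → ℤ) (n : ℕ) {x : ℝ} (hx : 0 ≤ x) :
    (absCnt δ n x : ℝ) ≤ cnt δ n x - cnt δ n (-x - 1) := by
  classical
  have h : absCnt δ n x + cnt δ n (-x - 1) ≤ cnt δ n x := by
    unfold absCnt cnt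
    rw [Nat.card_eq_fintype_card, Nat.card_eq_fintype_card, Nat.card_eq_fintype_card,
      Fintype.card_subtype, Fintype.card_subtype, Fintype.card_subtype,
      ← Finset.card_union_of_disjoint]
    · apply Finset.card_le_card
      intro g
      simp only [Finset.mem_union, Finset.mem_filter, Finset.mem_univ, true_and]
      rintro (h | h)
      · exact (abs_le.1 h).2
      · linarith
    · rw [Finset.disjoint_filter]
      intro g _ h1 h2
      have := (abs_le.1 h1).1
      linarith
  have h' : ((absCnt δ n x + cnt δ n (-x - 1) : ℕ) : ℝ) ≤ (cnt δ n x : ℝ) := by exact_mod_cast h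
  push_cast at h'
  linarith

lemma le_absCnt (δ : I → ℤ) (n : ℕ) {x : ℝ} (hx : 0 ≤ x) :
    (cnt δ n x : ℝ) - cnt δ n (-x) ≤ absCnt δ n x := by
  classical
  have h : cnt δ n x ≤ absCnt δ n x + cnt δ n (-x) := by
    unfold absCnt cnt
    rw [Nat.card_eq_fintype_card, Nat.card_eq_fintype_card, Nat.card_eq_fintype_card,
      Fintype.card_subtype, Fintype.card_subtype, Fintype.card_subtype]
    refine le_trans (Finset.card_le_card ?_) (Finset.card_union_le _ _)
    intro g
    simp only [Finset.mem_union, Finset.mem_filter, Finset.mem_univ, true_and]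
    intro h
    by_cases h1 : -x ≤ ((∑ k, δ (g k) : ℤ) : ℝ)
    · left
      exact abs_le.2 ⟨h1, h⟩
    · right
      exact (not_le.1 h1).le
  have h' : (cnt δ n x : ℝ) ≤ ((absCnt δ n x + cnt δ n (-x) : ℕ) : ℝ) := by exact_mod_cast h
  push_cast at h'
  linarith

/-- The central limit theorem for symmetric windows. -/
theorem tendsto_absCnt [Nonempty I] (δ : I → ℤ) (h0 : ∑ i, δ i = 0) (hne : ∃ i, δ i ≠ 0) {t : ℝ}
    (ht : 0 ≤ t) :
    Tendsto (fun n : ℕ => (absCnt δ n (t * √(n : ℝ)) : ℝ) / (Fintype.card I : ℝ) ^ n) atTop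
      (𝓝 (normalWindow (t / √(mom δ / Fintype.card I)))) := by
  have hc : (0 : ℝ) < Fintype.card I := by exact_mod_cast Fintype.card_pos
  set σ := √(mom δ / Fintype.card I) with hσ
  have hσ0 : 0 ≤ σ := Real.sqrt_nonneg _
  have hinv : Tendsto (fun n : ℕ => (√(n : ℝ))⁻¹) atTop (𝓝 0) :=
    tendsto_inv_atTop_zero.comp (Real.tendsto_sqrt_atTop.comp tendsto_natCast_atTop_atTop)
  have h1 : Tendsto (fun n : ℕ => (t * √(n : ℝ)) / √(n : ℝ)) atTop (𝓝 t) := by
    refine tendsto_const_nhds.congr' ?_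
    filter_upwards [eventually_gt_atTop 0] with n hn
    have h4 : (0 : ℝ) < √(n : ℝ) := Real.sqrt_pos.2 (by exact_mod_cast hn)
    field_simp
  have h2 : Tendsto (fun n : ℕ => (-(t * √(n : ℝ))) / √(n : ℝ)) atTop (𝓝 (-t)) := by
    refine h1.neg.congr fun n => ?_
    rw [neg_div]
  have h3 : Tendsto (fun n : ℕ => (-(t * √(n : ℝ)) - 1) / √(n : ℝ)) atTop (𝓝 (-t)) := by
    have := h2.sub hinv
    rw [sub_zero] at this
    refine this.congr fun n => ?_
    rw [sub_div, one_div]
  have l1 := tendsto_cnt δ h0 hne h1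
  have l2 := tendsto_cnt δ h0 hne h2
  have l3 := tendsto_cnt δ h0 hne h3
  have hlim : Phi (t / σ) - Phi (-t / σ) = normalWindow (t / σ) := by
    rw [normalWindow_eq (div_nonneg ht hσ0), neg_div, Phi_neg]
    ring
  rw [← hlim]
  refine tendsto_of_tendsto_of_tendsto_of_le_of_le (l1.sub l2) (l1.sub l3) (fun n => ?_)
    (fun n => ?_)
  · have := le_absCnt δ n (x := t * √(n : ℝ)) (by positivity)
    simp only [Pi.sub_apply]
    rw [← sub_div]
    gcongr
  · have := absCnt_le δ n (x := t * √(n : ℝ)) (by positivity)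
    simp only [Pi.sub_apply]
    rw [← sub_div]
    gcongr

end count

/-- The number of the Jordan blocks of size greater than `k` of the nilpotent operator `N`. -/
noncomputable def numBlocks {Ω : Type w} [Field Ω] {V : Type v} [AddCommGroup V] [Module Ω V]
    (N : Module.End Ω V) (k : ℕ) : ℕ :=
  finrank Ω (LinearMap.ker (N ^ (k + 1))) - finrank Ω (LinearMap.ker (N ^ k))

section

variable {Ω : Type w} [Field Ω] [CharZero Ω] (R : Coh.{v, w} Ω) (q : ℕ)

open Classical in
/-- The number of the Frobenius eigenvalues on the `H^m` whose weight differs from `m` by at most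
`x`. -/
noncomputable def nearWeights (x : ℝ) : ℤ :=
  ∑ᶠ c : ℤ, if |(c : ℝ)| ≤ x then (finrank Ω (R.tot q c) : ℤ) else 0

open Classical in
/-- The number of the Frobenius eigenvalues on the graded pieces `M_s / M_(s - 1)` of the filtration
`M` whose weight differs from the expected one (excess `s`) by at most `x`. -/
noncomputable def nearDefects (M : ℤ → Submodule Ω R.V) (x : ℝ) : ℤ :=
  ∑ᶠ p : ℤ × ℤ, if |((p.2 - p.1 : ℤ) : ℝ)| ≤ x then
    ((finrank Ω (M p.1 ⊓ R.tot q p.2 : Submodule Ω R.V) : ℤ) -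
      finrank Ω (M (p.1 - 1) ⊓ R.tot q p.2 : Submodule Ω R.V)) else 0

end

section

variable {Ω : Type w} [Field Ω] [CharZero Ω] {R : Coh.{v, w} Ω} {q : ℕ} {I : Type} [Fintype I]
  {a c : I → ℤ}

/-- The number of blocks in an adapted basis. -/
lemma numBlocks_eq (H : R.Adp q a c) (k : ℕ) :
    numBlocks R.N k = Nat.card {i // -((k + 1 : ℕ) : ℤ) < a i ∧ a i ≤ ((k + 1 : ℕ) : ℤ)} -
      Nat.card {i // -(k : ℤ) < a i ∧ a i ≤ k} := by
  obtain ⟨b, e, h, hs, -⟩ := H
  unfold numBlocks
  rw [finrank_ker_sl2 hs, finrank_ker_sl2 hs]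

lemma nearWeights_eq (hW : iSupIndep (R.tot q)) (H : R.Adp q a c) (x : ℝ) :
    nearWeights R q x = Nat.card {i // |(c i : ℝ)| ≤ x} := by
  classical
  obtain ⟨b, e, h, -, hb⟩ := H
  have h1 : ∀ r : ℤ, (if |(r : ℝ)| ≤ x then (finrank Ω (R.tot q r) : ℤ) else 0) =
      (if |(r : ℝ)| ≤ x then 1 else 0) * (Nat.card {i // c i = r} : ℤ) := by
    intro r
    rw [finrank_gr hW b c hb r]
    split_ifs <;> simp
  unfold nearWeights
  rw [finsum_congr h1, finsum_card' c (fun r => if |(r : ℝ)| ≤ x then 1 else 0),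
    Nat.card_eq_fintype_card, Fintype.card_subtype, Finset.card_filter]
  push_cast
  rfl

lemma nearDefects_eq (hW : iSupIndep (R.tot q)) (H : R.Adp q a c) {M : ℤ → Submodule Ω R.V}
    (hM : IsMonodromyFiltrationOn ⊤ R.N M) (x : ℝ) :
    nearDefects R q M x = Nat.card {i // |((c i - a i : ℤ) : ℝ)| ≤ x} := by
  classical
  obtain ⟨b, e, h, hs, hb⟩ := H
  have h1 := Pool.Agent.Y68.MW.stD Pool.Agent.Y141.MW.stL Ω R.V R.N I b a e h hs M hM
  have h2 : ∀ r s, finrank Ω (M r ⊓ R.tot q s : Submodule Ω R.V) =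
      Nat.card {i // a i ≤ r ∧ c i = s} := by
    intro r s
    rw [h1 r, gr_eq_span hW b c hb s, span_image_inf, finrank_span_image]
    rfl
  have h3 : ∀ p : ℤ × ℤ, (if |((p.2 - p.1 : ℤ) : ℝ)| ≤ x then
      ((finrank Ω (M p.1 ⊓ R.tot q p.2 : Submodule Ω R.V) : ℤ) -
        finrank Ω (M (p.1 - 1) ⊓ R.tot q p.2 : Submodule Ω R.V)) else 0) =
      (if |((p.2 - p.1 : ℤ) : ℝ)| ≤ x then 1 else 0) *
        (Nat.card {i // (a i, c i) = p} : ℤ) := by
    rintro ⟨r, s⟩
    have h4 : Nat.card {i // a i ≤ r ∧ c i = s} = Nat.card {i // a i ≤ r - 1 ∧ c i = s} +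
        Nat.card {i // (a i, c i) = (r, s)} := by
      rw [Nat.card_eq_fintype_card, Nat.card_eq_fintype_card, Nat.card_eq_fintype_card,
        Fintype.card_subtype, Fintype.card_subtype, Fintype.card_subtype,
        ← Finset.card_union_of_disjoint]
      · congr 1
        ext i
        simp only [Finset.mem_filter, Finset.mem_univ, true_and, Finset.mem_union, Prod.mk.injEq]
        omega
      · rw [Finset.disjoint_filter]
        intro i _ h5 h6
        simp only [Prod.mk.injEq] at h6
        omega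
    simp only
    rw [h2, h2, h4]
    split_ifs
    · push_cast; ring
    · simp
  unfold nearDefects
  rw [finsum_congr h3, finsum_card' (fun i => (a i, c i))
    (fun p : ℤ × ℤ => if |((p.2 - p.1 : ℤ) : ℝ)| ≤ x then 1 else 0),
    Nat.card_eq_fintype_card, Fintype.card_subtype, Finset.card_filter]
  push_cast
  rfl

end

end Pool.Agent.Q60.PL
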